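import Pool.Agent.TH658.Eq.Newt

/-!
Two square matrices over a field of characteristic zero, with coprime characteristic polynomials,
for which all the differences of the traces of the powers are rational: then both characteristic
polynomials have rational coefficients.
-/

set_option autoImplicit false

namespace Pool.Agent.Y121.CF

open Finset Polynomial

variable {k : Type} [Field k] [CharZero k]

/-- the power sums of a matrix, shifted -/
noncomputable def ps {ι : Type} [Fintype ι] [DecidableEq ι] (M : Matrix ι ι k) : PowerSeries k :=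
  PowerSeries.mk fun n => (M ^ (n + 1)).trace

/-- Newton's identities as a differential equation -/
theorem deriv_charpolyRev {ι : Type} [Fintype ι] [DecidableEq ι] (M : Matrix ι ι k) :
    PowerSeries.derivative k (M.charpolyRev : PowerSeries k) =
      -((M.charpolyRev : PowerSeries k) * ps M) := by
  ext n
  rw [PowerSeries.coeff_derivative, Polynomial.coeff_coe, Pool.Agent.TH658.Eq.newton, map_neg,
    PowerSeries.coeff_mul]
  congr 1
  refine Finset.sum_congr rfl fun p _ => ?_
  rw [ps, PowerSeries.coeff_mk, Polynomial.coeff_coe]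

theorem constCoeff_rev {ι : Type} [Fintype ι] [DecidableEq ι] (M : Matrix ι ι k) :
    M.charpolyRev.coeff 0 = 1 := by
  rw [coeff_zero_eq_eval_zero, Matrix.eval_charpolyRev]

/-- a power series with rational logarithmic derivative and constant term one is rational -/
theorem rat_of_log {F U : PowerSeries k} (h : PowerSeries.derivative k F = -(F * U))
    (h0 : PowerSeries.coeff 0 F = 1) (hU : ∀ n, ∃ q : ℚ, PowerSeries.coeff n U = (q : k)) (n : ℕ) :
    ∃ q : ℚ, PowerSeries.coeff n F = (q : k) := by
  induction n using Nat.strong_induction_on with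
  | _ n ih =>
    rcases n with _ | n
    · exact ⟨1, by rw [h0, Rat.cast_one]⟩
    · have h1 := congrArg (PowerSeries.coeff n) h
      rw [PowerSeries.coeff_derivative, map_neg, PowerSeries.coeff_mul] at h1
      have h2 : ∃ q : ℚ, (∑ p ∈ Finset.HasAntidiagonal.antidiagonal n,
          PowerSeries.coeff p.1 F * PowerSeries.coeff p.2 U) = (q : k) := by
        have h3 : ∀ p ∈ Finset.HasAntidiagonal.antidiagonal n, ∃ q : ℚ,
            PowerSeries.coeff p.1 F * PowerSeries.coeff p.2 U = (q : k) := by
          intro p hp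
          rw [Finset.HasAntidiagonal.mem_antidiagonal] at hp
          obtain ⟨a, ha⟩ := ih p.1 (by omega)
          obtain ⟨b, hb⟩ := hU p.2
          exact ⟨a * b, by rw [ha, hb, Rat.cast_mul]⟩
        choose! f hf using h3
        exact ⟨∑ p ∈ Finset.HasAntidiagonal.antidiagonal n, f p, by
          rw [Rat.cast_sum]
          exact Finset.sum_congr rfl hf⟩
      obtain ⟨q, hq⟩ := h2
      rw [hq] at h1
      have h4 : ((n : k) + 1) ≠ 0 := by exact_mod_cast Nat.succ_ne_zero n
      refine ⟨-q / (n + 1), ?_⟩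
      rw [Rat.cast_div, Rat.cast_neg, Rat.cast_add, Rat.cast_one, Rat.cast_natCast,
        eq_div_iff h4, h1]

/-- a rational retraction of a field of characteristic zero -/
theorem exists_retr : ∃ τ : k →ₗ[ℚ] k, τ 1 = 1 ∧ (∀ x, ∃ q : ℚ, τ x = (q : k)) ∧
    ∀ (x : k) (q : ℚ), τ (x * (q : k)) = τ x * (q : k) := by
  have hinj : LinearMap.ker (Algebra.linearMap ℚ k) = ⊥ := by
    rw [LinearMap.ker_eq_bot]
    exact (algebraMap ℚ k).injective
  obtain ⟨g, hg⟩ := (Algebra.linearMap ℚ k).exists_leftInverse_of_injective hinj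
  refine ⟨(Algebra.linearMap ℚ k).comp g, ?_, fun x => ⟨g x, ?_⟩, fun x q => ?_⟩
  · have h1 := LinearMap.congr_fun hg 1
    rw [LinearMap.comp_apply, LinearMap.id_apply, Algebra.linearMap_apply, map_one] at h1
    rw [LinearMap.comp_apply, h1, Algebra.linearMap_apply, map_one]
  · rw [LinearMap.comp_apply, Algebra.linearMap_apply, eq_ratCast]
  · have h1 : x * (q : k) = q • x := by
      rw [Algebra.smul_def, eq_ratCast, mul_comm]
    rw [h1, map_smul, Algebra.smul_def, eq_ratCast, mul_comm]

/-- coefficientwise application of an additive map to a polynomial -/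
noncomputable def tmap (τ : k →ₗ[ℚ] k) (p : k[X]) : k[X] :=
  ∑ i ∈ range (p.natDegree + 1), Polynomial.C (τ (p.coeff i)) * X ^ i

theorem coeff_tmap (τ : k →ₗ[ℚ] k) (p : k[X]) (n : ℕ) : (tmap τ p).coeff n = τ (p.coeff n) := by
  rw [tmap, finset_sum_coeff]
  by_cases hn : n ∈ range (p.natDegree + 1)
  · rw [Finset.sum_eq_single n]
    · rw [coeff_C_mul_X_pow, if_pos rfl]
    · intro b _ hb
      rw [coeff_C_mul_X_pow, if_neg (Ne.symm hb)]
    · intro h
      exact absurd hn h
  · have h1 : p.coeff n = 0 := by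
      apply coeff_eq_zero_of_natDegree_lt
      rw [Finset.mem_range] at hn
      omega
    rw [h1, map_zero]
    refine Finset.sum_eq_zero fun i hi => ?_
    rw [coeff_C_mul_X_pow, if_neg]
    rintro rfl
    exact hn hi

theorem natDegree_tmap (τ : k →ₗ[ℚ] k) (p : k[X]) : (tmap τ p).natDegree ≤ p.natDegree := by
  rw [natDegree_le_iff_coeff_eq_zero]
  intro n hn
  rw [coeff_tmap, coeff_eq_zero_of_natDegree_lt hn, map_zero]

/-- the core: `P = Q F` with `F` rational, `P` and `Q` coprime with constant term one -/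
theorem rational_of_quot {P Q : k[X]} (hPQ : IsCoprime P Q) (hQ0 : Q.coeff 0 = 1)
    {F : PowerSeries k} (hF : (Q : PowerSeries k) * F = (P : PowerSeries k))
    (hrat : ∀ n, ∃ q : ℚ, PowerSeries.coeff n F = (q : k)) :
    (∀ n, ∃ q : ℚ, P.coeff n = (q : k)) ∧ (∀ n, ∃ q : ℚ, Q.coeff n = (q : k)) := by
  obtain ⟨τ, h1, hτr, hτ⟩ := exists_retr (k := k)
  have hker : (tmap τ Q : PowerSeries k) * F = (tmap τ P : PowerSeries k) := by
    ext n
    rw [Polynomial.coeff_coe, coeff_tmap, ← Polynomial.coeff_coe, ← hF, PowerSeries.coeff_mul,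
      PowerSeries.coeff_mul, map_sum]
    refine Finset.sum_congr rfl fun p _ => ?_
    obtain ⟨q, hq⟩ := hrat p.2
    rw [hq, Polynomial.coeff_coe, Polynomial.coeff_coe, coeff_tmap, hτ]
  have h2 : tmap τ Q * P = tmap τ P * Q := by
    rw [← Polynomial.coe_inj, Polynomial.coe_mul, Polynomial.coe_mul, ← hF, ← hker]
    ring
  have hQne : Q ≠ 0 := by
    rintro rfl
    rw [coeff_zero] at hQ0
    exact zero_ne_one hQ0
  have h3 : Q ∣ tmap τ Q := by
    have h4 : Q ∣ tmap τ Q * P := ⟨tmap τ P, by rw [h2, mul_comm]⟩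
    exact (hPQ.symm).dvd_of_dvd_mul_right h4
  obtain ⟨c, hc⟩ := h3
  have hc0 : c ≠ 0 := by
    rintro rfl
    rw [mul_zero] at hc
    have := coeff_tmap τ Q 0
    rw [hc, hQ0, h1, coeff_zero] at this
    exact zero_ne_one this
  have hdeg : c.natDegree = 0 := by
    have h5 := natDegree_tmap τ Q
    rw [hc, natDegree_mul hQne hc0] at h5
    omega
  obtain ⟨a, rfl⟩ := natDegree_eq_zero.1 hdeg
  have ha : a = 1 := by
    have := coeff_tmap τ Q 0
    rw [hc, coeff_mul_C, hQ0, h1, one_mul] at this
    exact this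
  rw [ha, map_one, mul_one] at hc
  have h6 : tmap τ P = P := by
    rw [hc] at h2
    have h7 : Q * (tmap τ P - P) = 0 := by linear_combination -h2
    rcases mul_eq_zero.1 h7 with h | h
    · exact absurd h hQne
    · exact sub_eq_zero.1 h
  refine ⟨fun n => ?_, fun n => ?_⟩
  · rw [← h6, coeff_tmap]
    exact hτr _
  · rw [← hc, coeff_tmap]
    exact hτr _

/-- reversal of a coprime pair, the first of which is monic -/
theorem isCoprime_reverse {P Q : k[X]} (hP : P.Monic) (h : IsCoprime P Q) :
    IsCoprime P.reverse Q.reverse := by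
  obtain ⟨a, b, hab⟩ := h
  set N := (max (a * P).natDegree (b * Q).natDegree) + P.natDegree + Q.natDegree +
    a.natDegree + b.natDegree with hN
  have h1 : reflect N (a * P) = reflect (N - P.natDegree) a * P.reverse := by
    have h2 := reflect_mul a P (F := N - P.natDegree) (G := P.natDegree) (by omega) le_rfl
    rw [Nat.sub_add_cancel (by omega)] at h2
    exact h2
  have h3 : reflect N (b * Q) = reflect (N - Q.natDegree) b * Q.reverse := by
    have h2 := reflect_mul b Q (F := N - Q.natDegree) (G := Q.natDegree) (by omega) le_rfl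
    rw [Nat.sub_add_cancel (by omega)] at h2
    exact h2
  have h4 : reflect N (a * P) + reflect N (b * Q) = X ^ N := by
    rw [← reflect_add, hab, ← C_1, reflect_C, C_1, one_mul]
  rw [h1, h3] at h4
  have h5 : IsCoprime P.reverse (X ^ N) := by
    apply IsCoprime.pow_right
    have h6 : P.reverse = C 1 + X * P.reverse.divX := by
      conv_lhs => rw [← X_mul_divX_add P.reverse]
      rw [coeff_zero_reverse, hP.leadingCoeff, add_comm]
    refine ⟨1, -P.reverse.divX, ?_⟩
    rw [one_mul]
    nth_rewrite 1 [h6]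
    rw [C_1]
    ring
  rw [← h4] at h5
  have h7 : IsCoprime P.reverse (reflect (N - Q.natDegree) b * Q.reverse) := by
    obtain ⟨u, v, huv⟩ := h5
    refine ⟨u + v * reflect (N - P.natDegree) a, v, ?_⟩
    rw [← huv]
    ring
  exact h7.of_mul_right_right

/-- rationality of the characteristic polynomials -/
theorem charpoly_rational {ι κ : Type} [Fintype ι] [DecidableEq ι] [Fintype κ] [DecidableEq κ]
    (M : Matrix ι ι k) (N : Matrix κ κ k) (hcop : IsCoprime M.charpoly N.charpoly)
    (htr : ∀ n : ℕ, ∃ q : ℚ, (M ^ n).trace - (N ^ n).trace = (q : k)) :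
    (∀ n, ∃ q : ℚ, M.charpoly.coeff n = (q : k)) ∧
      (∀ n, ∃ q : ℚ, N.charpoly.coeff n = (q : k)) := by
  have hc : IsCoprime M.charpolyRev N.charpolyRev := by
    rw [← Matrix.reverse_charpoly, ← Matrix.reverse_charpoly]
    exact isCoprime_reverse (Matrix.charpoly_monic M) hcop
  have hunit : PowerSeries.constantCoeff (N.charpolyRev : PowerSeries k) ≠ 0 := by
    rw [Polynomial.constantCoeff_coe, constCoeff_rev]
    exact one_ne_zero
  set P : PowerSeries k := (M.charpolyRev : PowerSeries k) with hP
  set Q : PowerSeries k := (N.charpolyRev : PowerSeries k) with hQ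
  set F : PowerSeries k := Q⁻¹ * P with hFdef
  have hQF : Q * F = P := by
    rw [hFdef, ← mul_assoc, PowerSeries.mul_inv_cancel _ hunit, one_mul]
  have hQne : Q ≠ 0 := by
    rintro h
    rw [h, map_zero] at hunit
    exact hunit rfl
  have hlog : PowerSeries.derivative k F = -(F * (ps M - ps N)) := by
    have h1 := congrArg (PowerSeries.derivative k) hQF
    rw [Derivation.leibniz, smul_eq_mul, smul_eq_mul, hP, hQ, deriv_charpolyRev,
      deriv_charpolyRev, ← hP, ← hQ, ← hQF] at h1
    have h2 : Q * (PowerSeries.derivative k F + F * (ps M - ps N)) = 0 := by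
      linear_combination h1
    rcases mul_eq_zero.1 h2 with h | h
    · exact absurd h hQne
    · exact eq_neg_of_add_eq_zero_left h
  have h0 : PowerSeries.coeff 0 F = 1 := by
    have h1 := congrArg PowerSeries.constantCoeff hQF
    rw [map_mul, hQ, hP, Polynomial.constantCoeff_coe, Polynomial.constantCoeff_coe,
      constCoeff_rev, constCoeff_rev, one_mul] at h1
    rw [PowerSeries.coeff_zero_eq_constantCoeff_apply, h1]
  have hU : ∀ n, ∃ q : ℚ, PowerSeries.coeff n (ps M - ps N) = (q : k) := by
    intro n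
    obtain ⟨q, hq⟩ := htr (n + 1)
    exact ⟨q, by rw [map_sub, ps, ps, PowerSeries.coeff_mk, PowerSeries.coeff_mk, hq]⟩
  have hF := rat_of_log hlog h0 hU
  obtain ⟨hA, hB⟩ := rational_of_quot hc (constCoeff_rev N) hQF hF
  refine ⟨fun n => ?_, fun n => ?_⟩
  · obtain ⟨q, hq⟩ := hA (revAt M.charpoly.natDegree n)
    refine ⟨q, ?_⟩
    rw [← hq, ← Matrix.reverse_charpoly, coeff_reverse, revAt_invol]
  · obtain ⟨q, hq⟩ := hB (revAt N.charpoly.natDegree n)
    refine ⟨q, ?_⟩
    rw [← hq, ← Matrix.reverse_charpoly, coeff_reverse, revAt_invol]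

end Pool.Agent.Y121.CF
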