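import Pool.Agent.Y121.CF.Defs
import Pool.Agent.Y121.CF.Rat

/-!
`C_NC` does not depend on the coefficients.
-/

set_option autoImplicit false

namespace Pool.Agent.Y121.CF

open TensorProduct Polynomial

variable {k A Vp Vm : Type} [Field k] [CharZero k] [Ring A]
  [AddCommGroup Vp] [Module k Vp] [Module.Finite k Vp]
  [AddCommGroup Vm] [Module k Vm] [Module.Finite k Vm]

/-- the generic combination of a finite family of matrices -/
noncomputable def gen {s ι : Type} [Fintype s] [Fintype ι] [DecidableEq ι]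
    (M : s → Matrix ι ι k) : Matrix ι ι (MvPolynomial s k) :=
  ∑ x, (MvPolynomial.X x : MvPolynomial s k) • (M x).map MvPolynomial.C

omit [CharZero k] in
theorem gen_map {s ι L : Type} [Fintype s] [Fintype ι] [DecidableEq ι] [Field L] [Algebra k L]
    (M : s → Matrix ι ι k) (z : s → L) :
    (gen M).map (MvPolynomial.eval₂Hom (algebraMap k L) z) =
      ∑ x, z x • (M x).map (algebraMap k L) := by
  refine Matrix.ext fun i j => ?_
  rw [Matrix.map_apply, gen, Matrix.sum_apply, Matrix.sum_apply, map_sum]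
  refine Finset.sum_congr rfl fun x _ => ?_
  rw [Matrix.smul_apply, Matrix.smul_apply, Matrix.map_apply, Matrix.map_apply, smul_eq_mul,
    smul_eq_mul, map_mul]
  congr 1
  · rw [MvPolynomial.coe_eval₂Hom, MvPolynomial.eval₂_X]
  · rw [MvPolynomial.coe_eval₂Hom, MvPolynomial.eval₂_C]

/-- the resultant of the generic characteristic polynomials -/
noncomputable def genRes {s ι κ : Type} [Fintype s] [Fintype ι] [DecidableEq ι] [Fintype κ]
    [DecidableEq κ] (M : s → Matrix ι ι k) (N : s → Matrix κ κ k) : MvPolynomial s k :=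
  resultant (gen M).charpoly (gen N).charpoly (Fintype.card ι) (Fintype.card κ)

omit [CharZero k] in
theorem genRes_ne {s ι κ L : Type} [Fintype s] [Fintype ι] [DecidableEq ι] [Fintype κ]
    [DecidableEq κ] [Field L] [Algebra k L] (M : s → Matrix ι ι k) (N : s → Matrix κ κ k)
    (z : s → L) :
    MvPolynomial.eval₂Hom (algebraMap k L) z (genRes M N) ≠ 0 ↔
      IsCoprime (∑ x, z x • (M x).map (algebraMap k L)).charpoly
        (∑ x, z x • (N x).map (algebraMap k L)).charpoly := by
  rw [genRes, ← resultant_map_map, ← Matrix.charpoly_map, ← Matrix.charpoly_map, gen_map, gen_map]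
  have h1 := Matrix.charpoly_natDegree_eq_dim (∑ x, z x • (M x).map (algebraMap k L))
  have h2 := Matrix.charpoly_natDegree_eq_dim (∑ x, z x • (N x).map (algebraMap k L))
  rw [← h1, ← h2, Ne, resultant_eq_zero_iff]
  constructor
  · intro h
    by_contra h3
    exact h ⟨Or.inl (Matrix.charpoly_monic _).ne_zero, h3⟩
  · intro h h3
    exact h3.2 h

/-- an integral point of an affine space off a hypersurface -/
theorem exists_int_point {s : Type} (p : MvPolynomial s k) (hp : p ≠ 0) :
    ∃ z : s → ℤ, MvPolynomial.eval (fun x => (z x : k)) p ≠ 0 := by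
  by_contra h
  push Not at h
  apply hp
  refine MvPolynomial.funext_set (fun _ => Set.range (Int.cast : ℤ → k))
    (fun _ => Set.infinite_range_of_injective Int.cast_injective) ?_
  intro x hx
  rw [map_zero]
  have h1 : ∀ i, ∃ n : ℤ, (n : k) = x i := fun i => hx i (Set.mem_univ i)
  choose z hz using h1
  have h2 := h z
  rwa [show (fun i => ((z i : ℤ) : k)) = x from funext hz] at h2

omit [CharZero k] in
theorem toMatrix_act (F L : Type) [Field F] [Field L] [Algebra k L] [Algebra F L]
    (ρ : A →+* Module.End k Vp) (c : A →₀ F) {ι : Type} [Fintype ι] [DecidableEq ι]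
    (b : Module.Basis ι k Vp) :
    LinearMap.toMatrix (Algebra.TensorProduct.basis L b) (Algebra.TensorProduct.basis L b) (act F L ρ c) =
      ∑ x : c.support, algebraMap F L (c x) •
        (LinearMap.toMatrix b b (ρ x)).map (algebraMap k L) := by
  rw [act, map_sum, ← Finset.sum_coe_sort]
  refine Finset.sum_congr rfl fun x _ => ?_
  rw [map_smul, LinearMap.toMatrix_baseChange]

/-- separation with coefficients implies integral separation -/
theorem sep_int (F L : Type) [Field F] [Field L] [Algebra k L] [Algebra F L]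
    (ρp : A →+* Module.End k Vp) (ρm : A →+* Module.End k Vm) (h : Sep F L ρp ρm) :
    ∃ r : A, IsCoprime (ρp r).charpoly (ρm r).charpoly := by
  obtain ⟨c, hc⟩ := h
  set bp := Module.finBasis k Vp
  set bm := Module.finBasis k Vm
  rw [← LinearMap.charpoly_toMatrix _ (Algebra.TensorProduct.basis L bp),
    ← LinearMap.charpoly_toMatrix _ (Algebra.TensorProduct.basis L bm), toMatrix_act, toMatrix_act] at hc
  rw [← genRes_ne (fun x : c.support => LinearMap.toMatrix bp bp (ρp x))
    (fun x : c.support => LinearMap.toMatrix bm bm (ρm x))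
    (fun x : c.support => algebraMap F L (c x))] at hc
  have h1 : genRes (fun x : c.support => LinearMap.toMatrix bp bp (ρp x))
      (fun x : c.support => LinearMap.toMatrix bm bm (ρm x)) ≠ 0 := by
    intro h0
    rw [h0, map_zero] at hc
    exact hc rfl
  obtain ⟨z, hz⟩ := exists_int_point _ h1
  have h2 := (genRes_ne (L := k) (fun x : c.support => LinearMap.toMatrix bp bp (ρp x))
    (fun x : c.support => LinearMap.toMatrix bm bm (ρm x)) (fun x => (z x : k))).1 (by
      intro h3
      apply hz
      rw [← h3]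
      rfl)
  refine ⟨∑ x : c.support, z x • (x : A), ?_⟩
  have h4 : ∀ {V : Type} [AddCommGroup V] [Module k V] [Module.Finite k V]
      (ρ : A →+* Module.End k V) (b : Module.Basis (Fin (Module.finrank k V)) k V),
      ∑ x : c.support, (z x : k) • (LinearMap.toMatrix b b (ρ x)).map (algebraMap k k) =
        LinearMap.toMatrix b b (ρ (∑ x : c.support, z x • (x : A))) := by
    intro V _ _ _ ρ b
    rw [map_sum, map_sum]
    refine Finset.sum_congr rfl fun x _ => ?_
    rw [map_zsmul, ← Int.cast_smul_eq_zsmul k, map_smul]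
    congr 1
  rw [h4 ρp bp, h4 ρm bm, LinearMap.charpoly_toMatrix, LinearMap.charpoly_toMatrix] at h2
  exact h2

/-- from a separating integral correspondence to an integral multiple of the projector -/
theorem proj_of_sep (ρp : A →+* Module.End k Vp) (ρm : A →+* Module.End k Vm)
    (hχ : ∀ x : A, ∃ q : ℚ, LinearMap.trace k Vp (ρp x) - LinearMap.trace k Vm (ρm x) = (q : k))
    (r : A) (hr : IsCoprime (ρp r).charpoly (ρm r).charpoly) :
    ∃ (a : A) (N : ℕ), N ≠ 0 ∧ ρp a = (N : Module.End k Vp) ∧ ρm a = 0 := by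
  classical
  set bp := Module.finBasis k Vp
  set bm := Module.finBasis k Vm
  have h1 := charpoly_rational (LinearMap.toMatrix bp bp (ρp r)) (LinearMap.toMatrix bm bm (ρm r))
    (by rw [LinearMap.charpoly_toMatrix, LinearMap.charpoly_toMatrix]; exact hr) (by
      intro n
      obtain ⟨q, hq⟩ := hχ (r ^ n)
      refine ⟨q, ?_⟩
      rw [← hq, LinearMap.trace_eq_matrix_trace k bp, LinearMap.trace_eq_matrix_trace k bm,
        map_pow ρp, map_pow ρm, LinearMap.toMatrix_pow, LinearMap.toMatrix_pow])
  rw [LinearMap.charpoly_toMatrix, LinearMap.charpoly_toMatrix] at h1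
  have h2 : ∀ P : k[X], (∀ n, ∃ q : ℚ, P.coeff n = (q : k)) →
      ∃ P₀ : ℚ[X], P₀.map (algebraMap ℚ k) = P := by
    intro P hP
    have h3 : P ∈ lifts (algebraMap ℚ k) := by
      rw [lifts_iff_coeff_lifts]
      intro n
      obtain ⟨q, hq⟩ := hP n
      exact ⟨q, by rw [hq, eq_ratCast]⟩
    exact (mem_lifts P).1 h3
  obtain ⟨P, hP⟩ := h2 _ h1.1
  obtain ⟨Q, hQ⟩ := h2 _ h1.2
  have h5 : IsCoprime P Q := by
    rw [← isCoprime_map (algebraMap ℚ k), hP, hQ]
    exact hr
  obtain ⟨u, v, huv⟩ := h5
  -- clear denominators in `v Q`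
  obtain ⟨N, hN, w, hw⟩ : ∃ N : ℕ, N ≠ 0 ∧ ∃ w : ℤ[X],
      w.map (algebraMap ℤ ℚ) = (N : ℚ[X]) * (v * Q) := by
    obtain ⟨b, hb0, hb⟩ := IsLocalization.integerNormalization_spec (nonZeroDivisors ℤ) (v * Q)
    refine ⟨b.natAbs ^ 2, pow_ne_zero 2 (Int.natAbs_ne_zero.2 (nonZeroDivisors.ne_zero hb0)),
      C b * IsLocalization.integerNormalization (nonZeroDivisors ℤ) (v * Q), ?_⟩
    have h6 : ((b.natAbs ^ 2 : ℕ) : ℚ[X]) = C (b : ℚ) * C (b : ℚ) := by
      rw [← C_mul, ← Int.cast_mul, ← Int.natAbs_mul_self' b, ← pow_two, Int.cast_pow,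
        Int.cast_natCast, C_pow, Nat.cast_pow]
      congr 1
    rw [Polynomial.map_mul, hb, Polynomial.map_C, h6, mul_assoc]
    congr 1
    rw [← smul_eq_C_mul]
    exact (Int.cast_smul_eq_zsmul ℚ b (v * Q)).symm
  have h7 : ∀ {V : Type} [AddCommGroup V] [Module k V] [Module.Finite k V]
      (ρ : A →+* Module.End k V), ρ (aeval r w) =
        (N : Module.End k V) * aeval (ρ r) ((v * Q).map (algebraMap ℚ k)) := by
    intro V _ _ _ ρ
    have h8 : ρ (aeval r w) = aeval (ρ r) (w.map (algebraMap ℤ k)) := by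
      rw [aeval_map_algebraMap, aeval_eq_sum_range, aeval_eq_sum_range, map_sum]
      refine Finset.sum_congr rfl fun i _ => ?_
      rw [map_zsmul, map_pow]
    have h9 : w.map (algebraMap ℤ k) = (w.map (algebraMap ℤ ℚ)).map (algebraMap ℚ k) := by
      rw [Polynomial.map_map]
      exact congrArg (fun f => Polynomial.map f w) (RingHom.ext_int _ _)
    rw [h8, h9, hw, Polynomial.map_mul, Polynomial.map_natCast, map_mul, map_natCast]
  refine ⟨aeval r w, N, hN, ?_, ?_⟩
  · rw [h7]
    have h10 : v * Q = 1 - u * P := by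
      rw [← huv]
      ring
    rw [h10, Polynomial.map_sub, Polynomial.map_one, Polynomial.map_mul, hP, map_sub, map_one,
      map_mul, LinearMap.aeval_self_charpoly, mul_zero, sub_zero, mul_one]
  · rw [h7, Polynomial.map_mul, hQ, map_mul, LinearMap.aeval_self_charpoly, mul_zero, mul_zero]

omit [CharZero k] in
theorem act_single (F L : Type) [Field F] [Field L] [Algebra k L] [Algebra F L]
    (ρ : A →+* Module.End k Vp) (a : A) (t : F) :
    act F L ρ (Finsupp.single a t) = algebraMap F L t • (ρ a).baseChange L := by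
  classical
  rw [act]
  by_cases ht : t = 0
  · subst ht
    rw [Finsupp.single_zero, Finsupp.support_zero, Finset.sum_empty, map_zero, zero_smul]
  · rw [Finsupp.support_single _ ht, Finset.sum_singleton, Finsupp.single_eq_same]

theorem cnc_of_proj (F L : Type) [Field F] [Field L] [Algebra k L] [Algebra F L]
    (ρp : A →+* Module.End k Vp) (ρm : A →+* Module.End k Vm)
    (h : ∃ (a : A) (N : ℕ), N ≠ 0 ∧ ρp a = (N : Module.End k Vp) ∧ ρm a = 0) :
    CNC F L ρp ρm := by
  obtain ⟨a, N, hN, hp, hm⟩ := h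
  have : CharZero L := charZero_of_injective_algebraMap (algebraMap k L).injective
  refine ⟨Finsupp.single a (N : F)⁻¹, ?_, ?_⟩
  · rw [act_single, hp, map_inv₀, map_natCast]
    have h1 : ((N : Module.End k Vp)).baseChange L = (N : L) • (1 : Module.End L (L ⊗[k] Vp)) := by
      have h2 : (N : Module.End k Vp) = (N : k) • (1 : Module.End k Vp) := by
        rw [Nat.cast_smul_eq_nsmul, nsmul_eq_mul, mul_one]
      rw [h2, LinearMap.baseChange_smul, Nat.cast_smul_eq_nsmul, Nat.cast_smul_eq_nsmul]
      congr 1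
      exact LinearMap.baseChange_id
    rw [h1, smul_smul, inv_mul_cancel₀ (Nat.cast_ne_zero.2 hN), one_smul]
  · rw [act_single, hm, LinearMap.baseChange_zero, smul_zero]

omit [CharZero k] in
theorem sep_of_cnc (F L : Type) [Field F] [Field L] [Algebra k L] [Algebra F L]
    (ρp : A →+* Module.End k Vp) (ρm : A →+* Module.End k Vm) (h : CNC F L ρp ρm) :
    Sep F L ρp ρm := by
  obtain ⟨c, hp, hm⟩ := h
  refine ⟨c, ?_⟩
  rw [hp, hm, LinearMap.charpoly_one, LinearMap.charpoly_zero]
  have h1 : IsCoprime (X - 1 : L[X]) X := ⟨-1, 1, by ring⟩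
  exact h1.pow

end Pool.Agent.Y121.CF
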