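import Mathlib

/-!
The realisation of noncommutative correspondences with coefficients.

`A` stands for the ring `K_0(𝒜^op ⊗ 𝒜)` of noncommutative self-correspondences of a saturated dg
category `𝒜` over a field `k` of characteristic zero, `Vp`, `Vm` for `HP^+(𝒜)`, `HP^-(𝒜)`, and
`ρp`, `ρm` for the action of the correspondences on them.  A correspondence with coefficients in a
field `F` is a finite formal `F`-linear combination of elements of `A`; it acts over a common
extension `L` of `F` and `k`.
-/

set_option autoImplicit false

namespace Pool.Agent.Y121.CF

open TensorProduct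

variable {k A V : Type} [Field k] [Ring A] [AddCommGroup V] [Module k V]

/-- the action of the correspondence `∑ c_x x` with coefficients in `F` on `L ⊗_k V` -/
noncomputable def act (F L : Type) [Field F] [Field L] [Algebra k L] [Algebra F L]
    (ρ : A →+* Module.End k V) (c : A →₀ F) : Module.End L (L ⊗[k] V) :=
  ∑ x ∈ c.support, algebraMap F L (c x) • (ρ x).baseChange L

/-- `C_NC` with coefficients in `F`: the Künneth projector onto the even part (equivalently, the
one onto the odd part) is the realisation of a correspondence with coefficients in `F` -/
def CNC (F L : Type) [Field F] [Field L] [Algebra k L] [Algebra F L] {Vp Vm : Type}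
    [AddCommGroup Vp] [Module k Vp] [AddCommGroup Vm] [Module k Vm]
    (ρp : A →+* Module.End k Vp) (ρm : A →+* Module.End k Vm) : Prop :=
  ∃ c : A →₀ F, act F L ρp c = 1 ∧ act F L ρm c = 0

/-- some correspondence with coefficients in `F` has coprime characteristic polynomials on the even
and on the odd part -/
def Sep (F L : Type) [Field F] [Field L] [Algebra k L] [Algebra F L] {Vp Vm : Type}
    [AddCommGroup Vp] [Module k Vp] [Module.Finite k Vp]
    [AddCommGroup Vm] [Module k Vm] [Module.Finite k Vm]
    (ρp : A →+* Module.End k Vp) (ρm : A →+* Module.End k Vm) : Prop :=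
  ∃ c : A →₀ F, IsCoprime (act F L ρp c).charpoly (act F L ρm c).charpoly

end Pool.Agent.Y121.CF
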